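import Pool.Agent.H92.CK.Targets

/-!
# MP_0ee698_an, ACH: a smooth surface inside the regular zero set of an analytic function is analytic
-/

open MeasureTheory Set Filter Topology Metric
open scoped ENNReal NNReal ContDiff RealInnerProductSpace

namespace Pool.Agent.H89.CK

open Pool.Agent.H92.CK Pool.Agent.H94.IC Pool.Agent.H94.AC

/-- decomposition in the direction of the last basis vector -/
theorem exists_ev_ne {l : E →L[ℝ] ℝ} (h : l ≠ 0) : ∃ k : Fin 3, l (ev k) ≠ 0 := by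
  by_contra hc
  push Not at hc
  apply h
  ext v
  have hv : v = ∑ k : Fin 3, (v k) • ev k := by
    ext i
    fin_cases i <;> simp [Fin.sum_univ_three]
  rw [hv, map_sum]
  simp [hc]

/-- near `q` the surface is the zero set of `g` -/
theorem zero_iff (S : Set E) (q : E) (Ψ : OpenPartialHomeomorph E E) (g : E → ℝ)
    (hq : q ∈ Ψ.source) (h0 : (Ψ q) 2 = 0) (hΨ : ContDiffOn ℝ ∞ Ψ Ψ.source)
    (hΨ' : ContDiffOn ℝ ∞ Ψ.symm Ψ.target) (hS : ∀ x ∈ Ψ.source, x ∈ S ↔ (Ψ x) 2 = 0)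
    (hg : AnalyticAt ℝ g q) (hgS : ∀ᶠ x in 𝓝 q, x ∈ S → g x = 0) (hd : fderiv ℝ g q ≠ 0) :
    ∀ᶠ x in 𝓝 q, x ∈ S ↔ g x = 0 := by
  set y0 : E := Ψ q with hy0
  have hy0t : y0 ∈ Ψ.target := Ψ.map_source hq
  have hsy0 : Ψ.symm y0 = q := Ψ.left_inv hq
  have htend : Tendsto Ψ.symm (𝓝 y0) (𝓝 q) := Ψ.tendsto_symm hq
  have e1 : ∀ᶠ y in 𝓝 y0, y ∈ Ψ.target := Ψ.open_target.mem_nhds hy0t
  have e2 : ∀ᶠ y in 𝓝 y0, AnalyticAt ℝ g (Ψ.symm y) := htend.eventually hg.eventually_analyticAt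
  have e3 : ∀ᶠ y in 𝓝 y0, Ψ.symm y ∈ S → g (Ψ.symm y) = 0 := htend.eventually hgS
  obtain ⟨G, hG⟩ : ∃ G : E → ℝ, ∀ y, G y = g (Ψ.symm y) := ⟨_, fun _ => rfl⟩
  have hGe : G = fun y => g (Ψ.symm y) := funext hG
  have hsymmAt : ∀ y ∈ Ψ.target, ContDiffAt ℝ ∞ Ψ.symm y := fun y hy =>
    hΨ'.contDiffAt (Ψ.open_target.mem_nhds hy)
  have hGat : ∀ y ∈ Ψ.target, AnalyticAt ℝ g (Ψ.symm y) → ContDiffAt ℝ ∞ G y := by
    intro y hy hgy
    have h1 : ContDiffAt ℝ ∞ g (Ψ.symm y) := hgy.contDiffAt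
    rw [hGe]
    exact h1.comp y (hsymmAt y hy)
  have hG0 : ContDiffAt ℝ ∞ G y0 := hGat y0 hy0t (by rw [hsy0]; exact hg)
  have hGd0 : DifferentiableAt ℝ G y0 := hG0.differentiableAt (by simp)
  have hΨq : DifferentiableAt ℝ Ψ q :=
    (hΨ.contDiffAt (Ψ.open_source.mem_nhds hq)).differentiableAt (by simp)
  -- zeros on the plane
  obtain ⟨r0, hr0, hball0⟩ := Metric.eventually_nhds_iff_ball.1 (e1.and (e2.and e3))
  have hplane : ∀ y ∈ ball y0 r0, y 2 = 0 → G y = 0 := by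
    intro y hy hy2
    obtain ⟨ht, -, h3⟩ := hball0 y hy
    rw [hG]
    apply h3
    rw [hS _ (Ψ.map_target ht), Ψ.right_inv ht]
    exact hy2
  -- the derivative in the direction `ev 2` is not zero
  have hpd : fderiv ℝ G y0 (ev 2) ≠ 0 := by
    intro hz
    have hker : ∀ v : E, v 2 = 0 → fderiv ℝ G y0 v = 0 := by
      intro v hv
      have hc : HasDerivAt (fun t : ℝ => G (y0 + t • v)) (fderiv ℝ G y0 v) 0 := by
        have h1 : HasDerivAt (fun t : ℝ => y0 + t • v) v 0 := by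
          simpa using ((hasDerivAt_id (0 : ℝ)).smul_const v).const_add y0
        have h2 : HasFDerivAt G (fderiv ℝ G y0) (y0 + (0 : ℝ) • v) := by
          rw [zero_smul, add_zero]; exact hGd0.hasFDerivAt
        exact h2.comp_hasDerivAt (0 : ℝ) h1
      have hev : (fun t : ℝ => G (y0 + t • v)) =ᶠ[𝓝 0] fun _ => 0 := by
        have hcont : Tendsto (fun t : ℝ => y0 + t • v) (𝓝 0) (𝓝 y0) := by
          have : Continuous (fun t : ℝ => y0 + t • v) := by fun_prop
          have h3 := this.tendsto 0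
          simpa using h3
        filter_upwards [hcont.eventually (ball_mem_nhds y0 hr0)] with t ht
        apply hplane _ ht
        have hy2 : y0 2 = 0 := h0
        simp [hv, hy2]
      have hc' : HasDerivAt (fun t : ℝ => G (y0 + t • v)) 0 0 :=
        (hasDerivAt_const (0 : ℝ) (0 : ℝ)).congr_of_eventuallyEq hev
      exact hc.unique hc'
    have hall : fderiv ℝ G y0 = 0 := by
      by_contra hne
      obtain ⟨k, hk⟩ := exists_ev_ne hne
      by_cases hk2 : k = 2
      · subst hk2; exact hk hz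
      · apply hk
        apply hker
        simp [Ne.symm hk2]
    apply hd
    have hcomp : g =ᶠ[𝓝 q] fun x => G (Ψ x) := by
      filter_upwards [Ψ.open_source.mem_nhds hq] with x hx
      show g x = G (Ψ x)
      rw [hG, Ψ.left_inv hx]
    rw [hcomp.fderiv_eq]
    have h4 : HasFDerivAt (fun x => G (Ψ x)) ((fderiv ℝ G y0).comp (fderiv ℝ Ψ q)) q :=
      HasFDerivAt.comp q hGd0.hasFDerivAt hΨq.hasFDerivAt
    rw [h4.fderiv, hall]
    simp
  -- it is nonzero in a ball
  have hcontd : ContinuousAt (fun y => fderiv ℝ G y (ev 2)) y0 := by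
    have h1 : ContDiffAt ℝ 1 (fderiv ℝ G) y0 := hG0.fderiv_right (by norm_cast)
    exact h1.continuousAt.clm_apply continuousAt_const
  have e4 : ∀ᶠ y in 𝓝 y0, fderiv ℝ G y (ev 2) ≠ 0 := hcontd.eventually_ne hpd
  obtain ⟨r, hr, hball⟩ := Metric.eventually_nhds_iff_ball.1 (e1.and (e2.and (e3.and e4)))
  have hcq : Tendsto Ψ (𝓝 q) (𝓝 y0) := (Ψ.continuousAt hq)
  filter_upwards [hcq.eventually (ball_mem_nhds y0 hr), Ψ.open_source.mem_nhds hq, hgS]
    with x hx hxs hxS
  refine ⟨hxS, fun hgx => ?_⟩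
  rw [hS x hxs]
  set y : E := Ψ x with hy
  by_contra hne
  have hxb : y ∈ ball y0 r := hx
  have hGy : G y = 0 := by
    rw [hG, hy, Ψ.left_inv hxs]; exact hgx
  set y' : E := y - (y 2) • ev 2 with hy'
  have hy'2 : y' 2 = 0 := by simp [hy']
  have hy'ball : y' ∈ ball y0 r := by
    rw [mem_ball, dist_eq_norm] at hxb ⊢
    refine lt_of_le_of_lt ?_ hxb
    rw [EuclideanSpace.norm_eq, EuclideanSpace.norm_eq]
    apply Real.sqrt_le_sqrt
    have hy2 : y0 2 = 0 := h0
    simp only [Fin.sum_univ_three, hy', PiLp.sub_apply, PiLp.smul_apply, Real.norm_eq_abs, sq_abs,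
      smul_eq_mul, PiLp.single_apply, hy2]
    simp
    positivity
  have hGy' : G y' = 0 := by
    obtain ⟨ht, -, h3, -⟩ := hball y' hy'ball
    rw [hG]
    apply h3
    rw [hS _ (Ψ.map_target ht), Ψ.right_inv ht]
    exact hy'2
  have hseg : ∀ s ∈ Icc (0 : ℝ) 1, y' + s • (y - y') ∈ ball y0 r := by
    intro s hs
    have := (convex_ball y0 r) hy'ball hxb (sub_nonneg.2 hs.2) hs.1 (by ring)
    convert this using 1
    module
  have hder : ∀ s ∈ Icc (0 : ℝ) 1, HasDerivAt (fun s : ℝ => G (y' + s • (y - y')))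
      (fderiv ℝ G (y' + s • (y - y')) (y - y')) s := by
    intro s hs
    obtain ⟨ht, ha, -, -⟩ := hball _ (hseg s hs)
    have h1 : HasDerivAt (fun t : ℝ => y' + t • (y - y')) (y - y') s := by
      simpa using ((hasDerivAt_id s).smul_const (y - y')).const_add y'
    exact ((hGat _ ht ha).differentiableAt (by simp)).hasFDerivAt.comp_hasDerivAt s h1
  obtain ⟨c, hc, hc0⟩ := exists_hasDerivAt_eq_zero (f := fun s : ℝ => G (y' + s • (y - y')))
    (f' := fun s => fderiv ℝ G (y' + s • (y - y')) (y - y')) (zero_lt_one)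
    (fun s hs => (hder s hs).continuousAt.continuousWithinAt)
    (by
      show G (y' + (0 : ℝ) • (y - y')) = G (y' + (1 : ℝ) • (y - y'))
      rw [zero_smul, add_zero, one_smul, add_sub_cancel, hGy, hGy'])
    (fun s hs => hder s (Ioo_subset_Icc_self hs))
  obtain ⟨-, -, -, h4⟩ := hball _ (hseg c (Ioo_subset_Icc_self hc))
  have hyy : y - y' = (y 2) • ev 2 := by simp [hy']
  rw [hyy, map_smul, smul_eq_mul, ← hyy] at hc0
  rcases mul_eq_zero.1 hc0 with h5 | h5
  · exact hne h5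
  · exact h4 h5

theorem pf_ACH : T_ACH := by
  intro S q Ψ g hq h0 hΨ hΨ' hS hg hgS hd
  have hSg := zero_iff S q Ψ g hq h0 hΨ hΨ' hS hg hgS hd
  -- a direction
  obtain ⟨w, hw2, hlw⟩ : ∃ w : E, w 2 = 1 ∧ fderiv ℝ g q w ≠ 0 := by
    by_cases h2 : fderiv ℝ g q (ev 2) = 0
    · obtain ⟨k, hk⟩ := exists_ev_ne hd
      have hk2 : k ≠ 2 := fun h => hk (h ▸ h2)
      refine ⟨ev 2 + ev k, ?_, ?_⟩
      · simp [Ne.symm hk2]
      · rw [map_add, h2, zero_add]; exact hk
    · exact ⟨ev 2, by simp, h2⟩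
  set l : E →L[ℝ] ℝ := fderiv ℝ g q with hl
  set pr : E →L[ℝ] ℝ := EuclideanSpace.proj (2 : Fin 3) with hpr
  have hprv : ∀ v : E, pr v = v 2 := fun v => rfl
  -- the derivative of the chart
  set A : E →L[ℝ] E := ContinuousLinearMap.id ℝ E + (l - pr).smulRight w with hA
  have hAv : ∀ v : E, A v = v + (l v - v 2) • w := fun v => by simp [hA, hprv]
  have hinj : Function.Injective A.toLinearMap := by
    rw [← LinearMap.ker_eq_bot, LinearMap.ker_eq_bot']
    intro v hv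
    have hv' : v + (l v - v 2) • w = 0 := by rw [← hAv]; exact hv
    have h2 : l v = 0 := by
      have := congrArg (fun z : E => z 2) hv'
      simp only [PiLp.add_apply, PiLp.smul_apply, smul_eq_mul, hw2, PiLp.zero_apply] at this
      linarith
    have h3 : v = (v 2) • w := by
      rw [h2, zero_sub, neg_smul] at hv'
      exact add_neg_eq_zero.1 hv'
    have h4 : v 2 = 0 := by
      have h5 : l v = (v 2) * l w := by
        conv_lhs => rw [h3]
        rw [map_smul, smul_eq_mul]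
      rw [h2] at h5
      rcases mul_eq_zero.1 h5.symm with h6 | h6
      · exact h6
      · exact absurd h6 hlw
    rw [h3, h4, zero_smul]
  set Ae : E ≃L[ℝ] E := (LinearEquiv.ofInjectiveEndo A.toLinearMap hinj).toContinuousLinearEquiv
    with hAe
  have hAe' : (Ae : E →L[ℝ] E) = A := by
    ext v : 1
    rfl
  -- the chart
  set Φ : E → E := fun x => x + (g x - x 2) • w with hΦ
  have hΦan : ∀ x, AnalyticAt ℝ g x → AnalyticAt ℝ Φ x := by
    intro x hx
    have h1 : AnalyticAt ℝ (fun x : E => x 2) x := pr.analyticAt x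
    exact analyticAt_id.add ((hx.sub h1).smul analyticAt_const)
  have hΦd : HasFDerivAt Φ (Ae : E →L[ℝ] E) q := by
    rw [hAe']
    have h1 : HasFDerivAt (fun x : E => x 2) pr q := pr.hasFDerivAt
    exact (hasFDerivAt_id q).add ((hg.differentiableAt.hasFDerivAt.sub h1).smul_const w)
  have hΦq : ContDiffAt ℝ ω Φ q := (hΦan q hg).contDiffAt
  have hne : (ω : WithTop ℕ∞) ≠ 0 := by simp
  set e0 : OpenPartialHomeomorph E E := hΦq.toOpenPartialHomeomorph Φ hΦd hne with he0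
  have he0c : (e0 : E → E) = Φ := rfl
  have hqs : q ∈ e0.source := hΦq.mem_toOpenPartialHomeomorph_source hΦd hne
  have hqt : Φ q ∈ e0.target := hΦq.image_mem_toOpenPartialHomeomorph_target hΦd hne
  have hsq : e0.symm (Φ q) = q := e0.left_inv hqs
  have hinv' : AnalyticAt ℝ e0.symm (Φ q) := by
    apply e0.analyticAt_symm (i := Ae) hqt
    · rw [hsq]; exact hΦan q hg
    · rw [hsq]; exact hΦd.fderiv
  have ev1 : ∀ᶠ x in 𝓝 q, AnalyticAt ℝ e0.symm (Φ x) :=
    (hΦan q hg).continuousAt.eventually hinv'.eventually_analyticAt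
  obtain ⟨V, hVsub, hVo, hqV⟩ := _root_.mem_nhds_iff.1
    ((ev1.and (hg.eventually_analyticAt.and hSg)) :
      {x | AnalyticAt ℝ e0.symm (Φ x) ∧ AnalyticAt ℝ g x ∧ (x ∈ S ↔ g x = 0)} ∈ 𝓝 q)
  refine ⟨e0.restrOpen V hVo, ⟨hqs, hqV⟩, ?_, ?_, ?_⟩
  · intro x hx
    exact (hΦan x (hVsub hx.2).2.1).contDiffAt.contDiffWithinAt
  · intro y hy
    have hyt : y ∈ e0.target := hy.1
    have hyV : e0.symm y ∈ V := hy.2
    have h1 := (hVsub hyV).1
    have h2 : Φ (e0.symm y) = y := e0.right_inv hyt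
    rw [h2] at h1
    exact (h1.contDiffAt).contDiffWithinAt
  · intro x hx
    have h1 := (hVsub hx.2).2.2
    have h2 : (Φ x) 2 = g x := by
      show (x + (g x - x 2) • w) 2 = g x
      simp [hw2]
    rw [h1]
    show g x = 0 ↔ (Φ x) 2 = 0
    rw [h2]

end Pool.Agent.H89.CK
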